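import Pool.Agent.Helper52.NF.St3

set_option autoImplicit false

namespace Pool.Agent.Helper76.NF

open Pool.Agent.Helper52.NF Finset

private lemma const_same {α β : Type} (σ : Equiv.Perm α) (h : α → β) (hh : ∀ a, h (σ a) = h a) :
    ∀ a b, σ.SameCycle a b → h a = h b := by
  have hinv : ∀ a, h (σ⁻¹ a) = h a := fun a => by
    have h1 := hh (σ⁻¹ a)
    have h2 : σ (σ⁻¹ a) = a := σ.apply_symm_apply a
    rw [h2] at h1
    exact h1.symm
  rintro a b ⟨m, hm⟩
  have key : ∀ m : ℤ, h ((σ ^ m) a) = h a := by
    intro m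
    induction m using Int.induction_on with
    | zero => simp
    | succ i ih =>
      rw [add_comm, zpow_add, zpow_one, Equiv.Perm.mul_apply, hh, ih]
    | pred i ih =>
      rw [sub_eq_neg_add, zpow_add, zpow_neg_one, Equiv.Perm.mul_apply, hinv, ih]
  rw [← hm, key]

private lemma eq_of_add {a b : ZMod 2} (h : a + b = 0) : a = b := by
  have := zz b
  linear_combination h - this

section

open Classical

private lemma rsp_conn {V : Type} {G : SimpleGraph V} (rot : Equiv.Perm G.Dart)
    (hrot : ∀ d d' : G.Dart, d.fst = d'.fst → rot.SameCycle d d') (h : G.Dart → ZMod 2)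
    (h1 : ∀ d, h (rot d) = h d) (h2 : ∀ d, h d.symm = h d) :
    ∀ (u v : V), G.Walk u v → ∀ d d' : G.Dart, d.fst = u → d'.fst = v → h d = h d' := by
  intro u v p
  induction p with
  | nil =>
    intro d d' hd hd'
    exact const_same rot h h1 d d' (hrot d d' (by rw [hd, hd']))
  | cons hadj p ih =>
    rename_i u v w
    intro d d' hd hd'
    have e1 := const_same rot h h1 d ⟨(u, v), hadj⟩ (hrot _ _ hd)
    rw [e1, ← h2]
    exact ih _ d' rfl hd'

private lemma rsp_conn2 {V : Type} {G : SimpleGraph V} (k : V → ZMod 2)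
    (h : ∀ d : G.Dart, k d.snd = k d.fst) : ∀ (u v : V), G.Walk u v → k u = k v := by
  intro u v p
  induction p with
  | nil => rfl
  | cons hadj p ih =>
    rename_i u v w
    rw [← ih]
    exact (h ⟨(u, v), hadj⟩).symm

theorem hRSP (hL : StLIN) : StRSP := by
  intro V _ G rot φ hP x hxf hxv
  obtain ⟨hconn, hr1, hr2, hφ, hcard⟩ := hP
  have : Nonempty V := hconn.nonempty
  let instF : Fintype (Fc φ) := Fintype.ofFinite _
  -- the maps
  let M : (G.edgeSet → ZMod 2) →ₗ[ZMod 2] (G.Dart → ZMod 2) :=
    { toFun := fun s d => s ⟨d.edge, d.edge_mem⟩ + s ⟨(rot.symm d).edge, (rot.symm d).edge_mem⟩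
      map_add' := fun s s' => by
        funext d
        simp only [Pi.add_apply]
        ring
      map_smul' := fun c s => by
        funext d
        simp only [Pi.smul_apply, smul_eq_mul, RingHom.id_apply]
        ring }
  let N : (G.Dart → ZMod 2) →ₗ[ZMod 2] (Fc φ ⊕ V → ZMod 2) :=
    { toFun := fun x k => Sum.elim
        (fun f => ∑ d ∈ Finset.univ.filter (fun d : G.Dart => fc φ d = f), x d)
        (fun v => ∑ d ∈ Finset.univ.filter (fun d : G.Dart => d.fst = v), x d) k
      map_add' := fun s s' => by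
        funext k
        rcases k with f | v
        · simp only [Sum.elim_inl, Pi.add_apply, Finset.sum_add_distrib]
        · simp only [Sum.elim_inr, Pi.add_apply, Finset.sum_add_distrib]
      map_smul' := fun c s => by
        funext k
        rcases k with f | v
        · simp only [Sum.elim_inl, Pi.smul_apply, smul_eq_mul, RingHom.id_apply,
            Finset.mul_sum]
        · simp only [Sum.elim_inr, Pi.smul_apply, smul_eq_mul, RingHom.id_apply,
            Finset.mul_sum] }
  let N' : (Fc φ ⊕ V → ZMod 2) →ₗ[ZMod 2] (G.Dart → ZMod 2) :=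
    { toFun := fun g d => g (Sum.inl (fc φ d)) + g (Sum.inr d.fst)
      map_add' := fun s s' => by
        funext d
        simp only [Pi.add_apply]
        ring
      map_smul' := fun c s => by
        funext d
        simp only [Pi.smul_apply, smul_eq_mul, RingHom.id_apply]
        ring }
  have hfcφ : ∀ d, fc φ (φ d) = fc φ d := fun d =>
    Quotient.sound (show (φ).SameCycle (φ d) d from (Equiv.Perm.sameCycle_apply_left).2
      (Equiv.Perm.SameCycle.refl _ _))
  have hadj : ∀ (g : Fc φ ⊕ V → ZMod 2) (c : G.Dart → ZMod 2),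
      ∑ k, g k * N c k = ∑ j, N' g j * c j := by
    intro g c
    rw [Fintype.sum_sum_type]
    have e1 : ∑ f : Fc φ, g (Sum.inl f) * N c (Sum.inl f) =
        ∑ d : G.Dart, g (Sum.inl (fc φ d)) * c d := by
      rw [← Finset.sum_fiberwise (s := (Finset.univ : Finset G.Dart)) (g := fun d => fc φ d)]
      refine Finset.sum_congr rfl (fun f _ => ?_)
      show g (Sum.inl f) * ∑ d ∈ Finset.univ.filter (fun d : G.Dart => fc φ d = f), c d = _
      rw [Finset.mul_sum]
      refine Finset.sum_congr rfl (fun d hd => ?_)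
      rw [(Finset.mem_filter.1 hd).2]
    have e2 : ∑ v : V, g (Sum.inr v) * N c (Sum.inr v) =
        ∑ d : G.Dart, g (Sum.inr d.fst) * c d := by
      rw [← Finset.sum_fiberwise (s := (Finset.univ : Finset G.Dart))
        (g := fun d : G.Dart => d.fst)]
      refine Finset.sum_congr rfl (fun v _ => ?_)
      show g (Sum.inr v) * ∑ d ∈ Finset.univ.filter (fun d : G.Dart => d.fst = v), c d = _
      rw [Finset.mul_sum]
      refine Finset.sum_congr rfl (fun d hd => ?_)
      rw [(Finset.mem_filter.1 hd).2]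
    rw [e1, e2, ← Finset.sum_add_distrib]
    refine Finset.sum_congr rfl (fun d _ => ?_)
    show _ = (g (Sum.inl (fc φ d)) + g (Sum.inr d.fst)) * c d
    ring
  have hNM : ∀ s, N (M s) = 0 := by
    intro s
    funext k
    rcases k with f | v
    · show ∑ d ∈ Finset.univ.filter (fun d : G.Dart => fc φ d = f),
        (s ⟨d.edge, d.edge_mem⟩ + s ⟨(rot.symm d).edge, (rot.symm d).edge_mem⟩) = 0
      rw [Finset.sum_add_distrib]
      have e1 : ∑ d ∈ Finset.univ.filter (fun d : G.Dart => fc φ d = f),
          s ⟨(rot.symm d).edge, (rot.symm d).edge_mem⟩ =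
          ∑ d ∈ Finset.univ.filter (fun d : G.Dart => fc φ d = f), s ⟨d.edge, d.edge_mem⟩ := by
        refine Finset.sum_equiv φ.symm (fun d => ?_) (fun d _ => ?_)
        · simp only [Finset.mem_filter, Finset.mem_univ, true_and]
          have h1 := hfcφ (φ.symm d)
          rw [Equiv.apply_symm_apply] at h1
          rw [h1]
        · have h2 : φ.symm d = (rot.symm d).symm := by
            rw [Equiv.symm_apply_eq, hφ, SimpleGraph.Dart.symm_symm, Equiv.apply_symm_apply]
          congr 1
          apply Subtype.ext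
          show (rot.symm d).edge = (φ.symm d).edge
          rw [h2, SimpleGraph.Dart.edge_symm]
      rw [e1]
      exact zz _
    · show ∑ d ∈ Finset.univ.filter (fun d : G.Dart => d.fst = v),
        (s ⟨d.edge, d.edge_mem⟩ + s ⟨(rot.symm d).edge, (rot.symm d).edge_mem⟩) = 0
      rw [Finset.sum_add_distrib]
      have e1 : ∑ d ∈ Finset.univ.filter (fun d : G.Dart => d.fst = v),
          s ⟨(rot.symm d).edge, (rot.symm d).edge_mem⟩ =
          ∑ d ∈ Finset.univ.filter (fun d : G.Dart => d.fst = v), s ⟨d.edge, d.edge_mem⟩ := by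
        refine Finset.sum_equiv rot.symm (fun d => ?_) (fun d _ => rfl)
        simp only [Finset.mem_filter, Finset.mem_univ, true_and]
        have h1 := hr1 (rot.symm d)
        rw [Equiv.apply_symm_apply] at h1
        rw [h1]
      rw [e1]
      exact zz _
  have hkM : ∀ s, M s = 0 → s = 0 ∨ s = fun _ => 1 := by
    intro s hs
    let h : G.Dart → ZMod 2 := fun d => s ⟨d.edge, d.edge_mem⟩
    have hh1 : ∀ d, h (rot d) = h d := by
      intro d
      have h1 : s ⟨(rot d).edge, (rot d).edge_mem⟩ +
          s ⟨(rot.symm (rot d)).edge, (rot.symm (rot d)).edge_mem⟩ = 0 := congrFun hs (rot d)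
      have h2 := eq_of_add h1
      show s ⟨(rot d).edge, (rot d).edge_mem⟩ = s ⟨d.edge, d.edge_mem⟩
      rw [h2]
      congr 1
      apply Subtype.ext
      show (rot.symm (rot d)).edge = d.edge
      rw [Equiv.symm_apply_apply]
    have hh2 : ∀ d : G.Dart, h d.symm = h d := by
      intro d
      show s ⟨d.symm.edge, d.symm.edge_mem⟩ = s ⟨d.edge, d.edge_mem⟩
      congr 1
      apply Subtype.ext
      exact SimpleGraph.Dart.edge_symm d
    have hcst : ∀ d d' : G.Dart, h d = h d' := fun d d' => by
      obtain ⟨p⟩ := hconn.preconnected d.fst d'.fst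
      exact rsp_conn rot hr2 h hh1 hh2 d.fst d'.fst p d d' rfl rfl
    have hsur : ∀ e : G.edgeSet, ∃ d : G.Dart, s e = h d := by
      rintro ⟨e, he⟩
      induction e using Sym2.ind with
      | _ a b => exact ⟨⟨(a, b), he⟩, rfl⟩
    by_cases hne : Nonempty G.Dart
    · obtain ⟨d0⟩ := hne
      rcases z01 (h d0) with h0 | h0
      · left
        funext e
        obtain ⟨d, hd⟩ := hsur e
        rw [hd, hcst d d0, h0]
        rfl
      · right
        funext e
        obtain ⟨d, hd⟩ := hsur e
        rw [hd, hcst d d0, h0]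
    · left
      funext e
      obtain ⟨d, hd⟩ := hsur e
      exact absurd ⟨d⟩ hne
  have hkN : ∀ g, N' g = 0 → g = 0 ∨ g = fun _ => 1 := by
    intro g hg
    have h1 : ∀ d : G.Dart, g (Sum.inl (fc φ d)) = g (Sum.inr d.fst) := fun d =>
      eq_of_add (congrFun hg d)
    have h2 : ∀ d : G.Dart, g (Sum.inr d.snd) = g (Sum.inr d.fst) := by
      intro d
      have h3 := h1 (φ d)
      rw [hfcφ, h1] at h3
      have h4 : (φ d).fst = d.snd := by rw [hφ, hr1]; rfl
      rw [h3, h4]
    have h5 : ∀ u v, g (Sum.inr u) = g (Sum.inr v) := by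
      intro u v
      obtain ⟨p⟩ := hconn.preconnected u v
      exact rsp_conn2 (fun v => g (Sum.inr v)) h2 u v p
    obtain ⟨v0⟩ := ‹Nonempty V›
    have h6 : ∀ k, g k = g (Sum.inr v0) := by
      rintro (f | v)
      · obtain ⟨d, rfl⟩ := Quotient.exists_rep f
        exact (h1 d).trans (h5 _ _)
      · exact h5 _ _
    rcases z01 (g (Sum.inr v0)) with h0 | h0
    · left
      funext k
      rw [h6 k, h0]
      rfl
    · right
      funext k
      rw [h6 k, h0]
  have hc : Fintype.card G.edgeSet + Fintype.card (Fc φ ⊕ V) = Fintype.card G.Dart + 2 := by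
    rw [Fintype.card_sum, G.dart_card_eq_twice_card_edges, SimpleGraph.edgeFinset_card]
    rw [Nat.card_eq_fintype_card, Nat.card_eq_fintype_card] at hcard
    omega
  have hx : N x = 0 := by
    funext k
    rcases k with f | v
    · exact hxf f
    · exact hxv v
  obtain ⟨s, hs⟩ := hL G.edgeSet G.Dart (Fc φ ⊕ V) M N N' hadj hNM hkM hkN hc x hx
  refine ⟨fun e => if h : e ∈ G.edgeSet then s ⟨e, h⟩ else 0, fun d => ?_⟩
  show x d = (if h : d.edge ∈ G.edgeSet then s ⟨d.edge, h⟩ else 0) +
    (if h : (rot.symm d).edge ∈ G.edgeSet then s ⟨(rot.symm d).edge, h⟩ else 0)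
  rw [dif_pos d.edge_mem, dif_pos (rot.symm d).edge_mem, ← hs]
  rfl

end

end Pool.Agent.Helper76.NF
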